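import Pool.Agent.Helper62.OG.Tol
import Pool.Agent.Helper60.TL.CoreG
import Pool.Agent.Helper28.TL.OptFin

/-!
# OG: assembly
-/

set_option autoImplicit false

namespace Pool.Agent.Helper62.OG

theorem core_main : CoreG := fun _ hd hd1 _ hP hc _ hκ =>
  Pool.Agent.Helper60.TL.coreG_of hd hd1 hP (Pool.Agent.Helper28.TL.optG hd hd1 hP hc hκ)

/-- Every prediction of a statistic of the window that is not the number fails. -/
theorem tol : Tol := tol_of core_main

end Pool.Agent.Helper62.OG
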