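import Pool.Agent.Helper57.OP.BV

/-!
# OG: from functions of bounded variation to combinations of indicators, with the pairing against a test function
-/

set_option autoImplicit false
open MeasureTheory Set Filter Topology
open Pool.Agent.Helper57.PC (IsNontrivialZero mult)
open Pool.Agent.Helper93.UG (zc sp)
open Pool.Agent.Helper57.NS (cnt)
open Pool.Agent.Helper57.OP

namespace Pool.Agent.Helper62.OG

/-- The sum of `g(height / R)` over the zeros whose height above `t` lies in `[-R, R]`. -/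
noncomputable def isum (g : ℝ → ℝ) (T R t : ℝ) : ℝ :=
  ∑ᶠ ρ ∈ {ρ : ℂ | IsNontrivialZero ρ ∧ (ρ.im - t) / sp T ∈ Icc (-R) R}, mult ρ * g ((ρ.im - t) / sp T / R)

lemma isum_sum {g : ℝ → ℝ} {T t R L : ℝ} (hRL : R ≤ L) {s : Finset ℂ}
    (hs : ∀ ρ : ℂ, IsNontrivialZero ρ → (ρ.im - t) / sp T ∈ Icc (-L) L → ρ ∈ s)
    (hs' : ∀ ρ ∈ s, IsNontrivialZero ρ) :
    isum g T R t = ∑ ρ ∈ s, (mult ρ : ℝ) * (Icc (-R) R).indicator (fun x => g (x / R)) ((ρ.im - t) / sp T) := by
  classical
  unfold isum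
  have h1 : {ρ : ℂ | IsNontrivialZero ρ ∧ (ρ.im - t) / sp T ∈ Icc (-R) R} =
      ↑(s.filter fun ρ : ℂ => (ρ.im - t) / sp T ∈ Icc (-R) R) := by
    ext ρ
    simp only [Set.mem_ofPred_eq, Finset.coe_filter]
    constructor
    · rintro ⟨h2, h3⟩
      exact ⟨hs ρ h2 ⟨by linarith [h3.1], by linarith [h3.2]⟩, h3⟩
    · rintro ⟨h2, h3⟩
      exact ⟨hs' ρ h2, h3⟩
  rw [h1, finsum_mem_coe_finset, Finset.sum_filter]
  refine Finset.sum_congr rfl fun ρ _ => ?_
  by_cases h : (ρ.im - t) / sp T ∈ Icc (-R) R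
  · rw [if_pos h, indicator_of_mem h]
  · rw [if_neg h, indicator_of_notMem h, mul_zero]

/-- the scaled function has the same variation -/
lemma var_scale {g : ℝ → ℝ} {R B : ℝ} (hR : 0 < R) (hg : eVariationOn g (Icc (-1) 1) ≤ ENNReal.ofReal B) :
    eVariationOn (fun x => g (x / R)) (Icc (-R) R) ≤ ENNReal.ofReal B := by
  refine le_trans ?_ hg
  refine eVariationOn.comp_le_of_monotoneOn g (fun x => x / R) ?_ ?_
  · intro x _ y _ hxy
    exact div_le_div_of_nonneg_right hxy hR.le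
  · intro x hx
    refine ⟨?_, ?_⟩
    · rw [le_div_iff₀ hR]
      linarith [hx.1]
    · rw [div_le_iff₀ hR]
      linarith [hx.2]

/-- a function of bounded variation is integrable -/
lemma bv_int {g : ℝ → ℝ} {B : ℝ} (hg : eVariationOn g (Icc (-1) 1) ≤ ENNReal.ofReal B) : IntegrableOn g (Icc (-1) 1) := by
  have hbv : BoundedVariationOn g (Icc (-1) 1) := ne_top_of_le_ne_top ENNReal.ofReal_ne_top hg
  obtain ⟨p, q, hp, hq, hpq⟩ := hbv.locallyBoundedVariationOn.exists_monotoneOn_sub_monotoneOn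
  rw [hpq]
  exact (hp.integrableOn_isCompact isCompact_Icc).sub (hq.integrableOn_isCompact isCompact_Icc)

/-- approximation, all `t` in `[T, 2 T]` at once, with the pairing -/
theorem gsum_approx {T L R B Bg : ℝ} (hT : 3 ≤ T) (hR : 0 < R) (hRL' : R < L) (hB : 0 < B) (hBg : 0 < Bg) {f g : ℝ → ℝ}
    (hf : ∀ x ∈ Icc (-L) L, |f x| ≤ B) (hv : eVariationOn f (Icc (-L) L) ≤ ENNReal.ofReal B)
    (hg : ∀ x ∈ Icc (-1:ℝ) 1, |g x| ≤ Bg) (hgv : eVariationOn g (Icc (-1) 1) ≤ ENNReal.ofReal Bg)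
    {ψ : ℝ → ℝ} (hψ : Continuous ψ) (hψ0 : ∀ x, 1 < |x| → ψ x = 0) {θ : ℝ} (hθ : 0 < θ) :
    ∃ (ι : Type) (s : Finset ι) (J : ι → Set ℝ) (w : ι → ℝ),
      (∀ i ∈ s, (J i).OrdConnected ∧ J i ⊆ Icc (-L) L) ∧ ∑ i ∈ s, |w i| ≤ 24 * B + 9 * Bg ∧
      (∀ t ∈ Icc T (2 * T), |isum g T R t + wsum f T L t (Icc (-R) R) - ∑ i ∈ s, w i * cnt T t (J i)| ≤ θ) ∧
      |(∫ x in (-L)..L, (∑ i ∈ s, w i * (J i).indicator (fun _ => (1 : ℝ)) x) * (ψ (x / R) / R)) -
        ∫ y in (-1:ℝ)..1, g y * ψ y| ≤ θ := by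
  classical
  have hRL : R ≤ L := hRL'.le
  have hL : 0 ≤ L := by linarith
  have hs0 : 0 < sp T := by
    unfold sp
    have := Real.log_pos (show (1 : ℝ) < T by linarith)
    positivity
  set Z : Finset ℂ := (Pool.Agent.Helper56.UG.fin_of (I := Icc (T - L * sp T) (2 * T + L * sp T)) subset_rfl).toFinset with hZ
  have hZs : ∀ t ∈ Icc T (2 * T), ∀ ρ : ℂ, IsNontrivialZero ρ → (ρ.im - t) / sp T ∈ Icc (-L) L → ρ ∈ Z := by
    intro t ht ρ hρ hh
    rw [hZ, Set.Finite.mem_toFinset]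
    refine ⟨hρ, ?_⟩
    have h1 := hh.1
    have h2 := hh.2
    rw [le_div_iff₀ hs0] at h1
    rw [div_le_iff₀ hs0] at h2
    exact ⟨by linarith [ht.1], by linarith [ht.2]⟩
  have hZ' : ∀ ρ ∈ Z, IsNontrivialZero ρ := by
    intro ρ hρ
    rw [hZ, Set.Finite.mem_toFinset] at hρ
    exact hρ.1
  set N : ℝ := ∑ ρ ∈ Z, (mult ρ : ℝ) with hN
  have hN0 : 0 ≤ N := Finset.sum_nonneg fun ρ _ => Nat.cast_nonneg _
  -- a bound for `ψ`
  obtain ⟨P, hP0, hP⟩ : ∃ P : ℝ, 0 ≤ P ∧ ∀ x ∈ Icc (-1:ℝ) 1, |ψ x| ≤ P := by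
    obtain ⟨P, hP⟩ := (isCompact_Icc (a := (-1:ℝ)) (b := 1)).exists_bound_of_continuousOn hψ.continuousOn
    exact ⟨max P 0, le_max_right _ _, fun x hx => (hP x hx).trans (le_max_left _ _)⟩
  set η : ℝ := min B (θ / (2 * (N + 2 * P + 1))) with hη
  have hη0 : 0 < η := lt_min hB (by positivity)
  have hηB : η ≤ B := min_le_left _ _
  have hηN' : 2 * η * (N + 2 * P + 1) ≤ θ := by
    have h1 : η ≤ θ / (2 * (N + 2 * P + 1)) := min_le_right _ _
    rw [le_div_iff₀ (by positivity)] at h1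
    linarith
  have hηN : 2 * η * N ≤ θ := by nlinarith [mul_nonneg hη0.le hP0, mul_nonneg hη0.le hN0]
  have hηP : 2 * η * (2 * P) ≤ θ := by nlinarith [mul_nonneg hη0.le hP0, mul_nonneg hη0.le hN0]
  obtain ⟨ho, hso, heo⟩ := bv_step2 hR.le hL hB.le hf hv hη0
  obtain ⟨hi, hsi, hei⟩ := bv_step (L := R) (O := Icc (-R) R) ordConnected_Icc subset_rfl hR.le hBg.le
    (f := fun x => g (x / R)) (fun x hx => hg _ ⟨by rw [le_div_iff₀ hR]; linarith [hx.1], by
      rw [div_le_iff₀ hR]; linarith [hx.2]⟩) (var_scale hR hgv) hη0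
  -- one step function on `[-L, L]`
  set h : ℝ → ℝ := fun x => if x ∈ Icc (-R) R then hi x else ho x with hh
  have hst1 : StepIn (Icc (-L) L \ Icc (-R) R) (18 * B + 4 * η) h := by
    obtain ⟨ι, s, J, w, a1, a2, a3⟩ := hso
    refine ⟨ι, s, J, w, a1, a2, fun x hx => ?_⟩
    rw [hh]
    simp only []
    rw [if_neg hx.2, a3 x hx]
  have hst2 : StepIn (Icc (-R) R) (9 * Bg + 2 * η) h := by
    obtain ⟨ι, s, J, w, a1, a2, a3⟩ := hsi
    refine ⟨ι, s, J, w, a1, a2, fun x hx => ?_⟩
    rw [hh]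
    simp only []
    rw [if_pos hx, a3 x hx]
  have hun : (Icc (-L) L \ Icc (-R) R) ∪ Icc (-R) R = Icc (-L) L :=
    sdiff_union_of_subset (Icc_subset_Icc (by linarith) hRL)
  have hst := hst1.union hst2 disjoint_sdiff_left
  rw [hun] at hst
  have herr : ∀ x ∈ Icc (-L) L, |(if x ∈ Icc (-R) R then g (x / R) else f x) - h x| ≤ 2 * η := by
    intro x hx
    rw [hh]
    simp only []
    by_cases hxR : x ∈ Icc (-R) R
    · rw [if_pos hxR, if_pos hxR]
      exact hei x hxR
    · rw [if_neg hxR, if_neg hxR]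
      exact heo x ⟨hx, hxR⟩
  obtain ⟨ι, s, J, w, a1, a2, a3⟩ := hst
  refine ⟨ι, s, J, w, a1, a2.trans (by linarith), fun t ht => ?_, ?_⟩
  · rw [wsum_sum (hZs t ht) hZ', isum_sum hRL (hZs t ht) hZ']
    have h1 : ∑ i ∈ s, w i * cnt T t (J i) = ∑ ρ ∈ Z, (mult ρ : ℝ) *
        ∑ i ∈ s, w i * (J i).indicator (fun _ => (1 : ℝ)) ((ρ.im - t) / sp T) := by
      rw [Finset.sum_congr rfl fun i hi => by
        rw [cnt_sum (a1 i hi).2 (hZs t ht) hZ']]
      simp only [Finset.mul_sum]
      rw [Finset.sum_comm]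
      exact Finset.sum_congr rfl fun ρ _ => Finset.sum_congr rfl fun i _ => by ring
    rw [h1, ← Finset.sum_add_distrib, ← Finset.sum_sub_distrib]
    refine (Finset.abs_sum_le_sum_abs _ _).trans ?_
    refine le_trans (Finset.sum_le_sum (g := fun ρ => (mult ρ : ℝ) * (2 * η)) fun ρ _ => ?_) ?_
    · rw [← mul_add, ← mul_sub, abs_mul, abs_of_nonneg (Nat.cast_nonneg _ : (0 : ℝ) ≤ (mult ρ : ℝ))]
      refine mul_le_mul_of_nonneg_left ?_ (Nat.cast_nonneg _)
      by_cases hm : (ρ.im - t) / sp T ∈ Icc (-L) L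
      · rw [← a3 _ hm]
        have h2 := herr _ hm
        by_cases hmR : (ρ.im - t) / sp T ∈ Icc (-R) R
        · rw [indicator_of_mem hmR, indicator_of_notMem (fun h5 => h5.2 hmR), add_zero]
          rwa [if_pos hmR] at h2
        · have hm2 : (ρ.im - t) / sp T ∈ Icc (-L) L \ Icc (-R) R := ⟨hm, hmR⟩
          rw [indicator_of_notMem hmR, indicator_of_mem hm2, zero_add]
          rwa [if_neg hmR] at h2
      · have hmR : (ρ.im - t) / sp T ∉ Icc (-R) R := fun h5 => hm ⟨by linarith [h5.1], by linarith [h5.2]⟩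
        rw [indicator_of_notMem hmR, indicator_of_notMem (fun h5 => hm h5.1), Finset.sum_eq_zero, add_zero, sub_zero, abs_zero]
        · positivity
        · intro i hi
          rw [indicator_of_notMem, mul_zero]
          exact fun h5 => hm ((a1 i hi).2 h5)
    · rw [← Finset.sum_mul, ← hN]
      linarith
  · -- the pairing
    obtain ⟨q, hq⟩ : ∃ q : ℝ → ℝ, q = fun x => 1 / R * ψ (x / R) := ⟨_, rfl⟩
    have hqc : Continuous q := by
      rw [hq]
      exact continuous_const.mul (hψ.comp (continuous_id.div_const R))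
    have hq0 : ∀ x, x ∉ Icc (-R) R → q x = 0 := by
      intro x hx
      rw [hq]
      simp only []
      rw [hψ0, mul_zero]
      rw [mem_Icc, ← abs_le, not_le] at hx
      rw [abs_div, abs_of_pos hR, one_lt_div hR]
      exact hx
    have hqi : IntegrableOn q (Icc (-R) R) := hqc.integrableOn_Icc
    have hJm : ∀ i ∈ s, MeasurableSet (J i) := fun i hi => (a1 i hi).1.measurableSet
    have hii : ∀ i ∈ s, IntegrableOn (fun x => w i * ((J i).indicator (fun _ => (1 : ℝ)) x * q x)) (Icc (-R) R) := by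
      intro i hi
      refine Integrable.const_mul ?_ _
      have h1 : (fun x => (J i).indicator (fun _ => (1 : ℝ)) x * q x) = (J i).indicator q := by
        funext x
        by_cases hx : x ∈ J i
        · rw [indicator_of_mem hx, indicator_of_mem hx, one_mul]
        · rw [indicator_of_notMem hx, indicator_of_notMem hx, zero_mul]
      rw [h1]
      exact hqi.indicator (hJm i hi)
    have h1 : ∫ x in (-L)..L, (∑ i ∈ s, w i * (J i).indicator (fun _ => (1 : ℝ)) x) * q x = ∫ x in Icc (-R) R, h x * q x := by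
      rw [intervalIntegral.integral_of_le (by linarith), setIntegral_eq_integral_of_forall_compl_eq_zero,
        ← setIntegral_eq_integral_of_forall_compl_eq_zero (s := Icc (-R) R)]
      · refine setIntegral_congr_fun measurableSet_Icc fun x hx => ?_
        show _ = h x * q x
        rw [a3 x ⟨by linarith [hx.1], by linarith [hx.2]⟩]
      · intro x hx
        rw [hq0 x hx, mul_zero]
      · intro x hx
        rw [hq0 x (fun h5 => hx ⟨by linarith [h5.1], by linarith [h5.2]⟩), mul_zero]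
    have h2 : ∫ y in (-1:ℝ)..1, g y * ψ y = ∫ x in Icc (-R) R, g (x / R) * q x := by
      have h3 := intervalIntegral.integral_comp_div (f := fun y => g y * ψ y) (a := -R) (b := R) hR.ne'
      rw [neg_div, div_self hR.ne', smul_eq_mul] at h3
      rw [integral_Icc_eq_integral_Ioc, ← intervalIntegral.integral_of_le (by linarith), hq]
      have h4 : ∀ x, g (x / R) * (1 / R * ψ (x / R)) = 1 / R * (g (x / R) * ψ (x / R)) := fun x => by ring
      simp only [h4]
      rw [intervalIntegral.integral_const_mul, h3, ← mul_assoc, one_div, inv_mul_cancel₀ hR.ne', one_mul]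
    have hgi : IntegrableOn (fun x => g (x / R)) (Icc (-R) R) := by
      have hbv : BoundedVariationOn (fun x => g (x / R)) (Icc (-R) R) :=
        ne_top_of_le_ne_top ENNReal.ofReal_ne_top (var_scale hR hgv)
      obtain ⟨p, q, hp, hq, hpq⟩ := hbv.locallyBoundedVariationOn.exists_monotoneOn_sub_monotoneOn
      rw [hpq]
      exact (hp.integrableOn_isCompact isCompact_Icc).sub (hq.integrableOn_isCompact isCompact_Icc)
    have hg1 : IntegrableOn (fun x => g (x / R) * q x) (Icc (-R) R) := by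
      refine Integrable.mul_bdd (c := 1 / R * P) hgi hqc.aestronglyMeasurable.restrict ?_
      rw [ae_restrict_iff' measurableSet_Icc]
      refine Eventually.of_forall fun x hx => ?_
      rw [hq, Real.norm_eq_abs]
      simp only []
      rw [abs_mul, abs_of_pos (by positivity : 0 < 1 / R)]
      refine mul_le_mul_of_nonneg_left (hP _ ⟨?_, ?_⟩) (by positivity)
      · rw [le_div_iff₀ hR]
        linarith [hx.1]
      · rw [div_le_iff₀ hR]
        linarith [hx.2]
    have hh1 : IntegrableOn (fun x => h x * q x) (Icc (-R) R) := by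
      have h3 : IntegrableOn (fun x => ∑ i ∈ s, w i * ((J i).indicator (fun _ => (1 : ℝ)) x * q x)) (Icc (-R) R) :=
        integrable_finsetSum _ hii
      refine h3.congr_fun (fun x hx => ?_) measurableSet_Icc
      show _ = h x * q x
      rw [a3 x ⟨by linarith [hx.1], by linarith [hx.2]⟩, Finset.sum_mul]
      exact Finset.sum_congr rfl fun i _ => by ring
    have hqq : ∀ x, ψ (x / R) / R = q x := fun x => by
      rw [hq]
      ring
    simp only [hqq]
    rw [h1, h2, ← integral_sub hh1 hg1]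
    have h3 : ‖∫ x in Icc (-R) R, (h x * q x - g (x / R) * q x)‖ ≤ (2 * η * (1 / R * P)) * volume.real (Icc (-R) R) := by
      refine norm_setIntegral_le_of_norm_le_const (by simp) fun x hx => ?_
      rw [Real.norm_eq_abs, ← sub_mul, abs_mul]
      have h4 := herr x ⟨by linarith [hx.1], by linarith [hx.2]⟩
      rw [if_pos hx, abs_sub_comm] at h4
      refine mul_le_mul h4 ?_ (abs_nonneg _) (by positivity)
      rw [hq]
      simp only []
      rw [abs_mul, abs_of_pos (by positivity : 0 < 1 / R)]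
      refine mul_le_mul_of_nonneg_left (hP _ ⟨?_, ?_⟩) (by positivity)
      · rw [le_div_iff₀ hR]
        linarith [hx.1]
      · rw [div_le_iff₀ hR]
        linarith [hx.2]
    rw [Real.norm_eq_abs] at h3
    refine h3.trans ?_
    rw [measureReal_def, Real.volume_Icc, ENNReal.toReal_ofReal (by linarith)]
    have h5 : 2 * η * (1 / R * P) * (R - -R) = 2 * η * (2 * P) := by
      field_simp
      ring
    rw [h5]
    exact hηP

end Pool.Agent.Helper62.OG
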