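import Mathlib

/-!
# OG: a test function for a function that is not constant almost everywhere
-/

set_option autoImplicit false
open MeasureTheory Set Filter Topology
open scoped ContDiff

namespace Pool.Agent.Helper62.OG

/-- the primitive of a smooth function of compact support and integral zero -/
theorem prim {φ : ℝ → ℝ} (hφ : ContDiff ℝ ∞ φ) {r : ℝ} (hr0 : 0 < r) (hr : r < 1) (hs : ∀ x, r < |x| → φ x = 0)
    (h0 : ∫ x in (-1:ℝ)..1, φ x = 0) : ContDiff ℝ ∞ (fun x => ∫ t in (-1:ℝ)..x, φ t) ∧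
      (∀ x, deriv (fun x => ∫ t in (-1:ℝ)..x, φ t) x = φ x) ∧ ∀ x, r < |x| → ∫ t in (-1:ℝ)..x, φ t = 0 := by
  have hc : Continuous φ := hφ.continuous
  have hd : ∀ x, HasDerivAt (fun x => ∫ t in (-1:ℝ)..x, φ t) (φ x) x := fun x =>
    intervalIntegral.integral_hasDerivAt_right (hc.intervalIntegrable _ _) (hc.stronglyMeasurableAtFilter _ _) hc.continuousAt
  have hd' : deriv (fun x => ∫ t in (-1:ℝ)..x, φ t) = φ := funext fun x => (hd x).deriv
  refine ⟨?_, fun x => (hd x).deriv, ?_⟩
  · rw [contDiff_infty_iff_deriv]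
    refine ⟨fun x => (hd x).differentiableAt, ?_⟩
    rw [hd']
    exact hφ
  · intro x hx
    have hz : ∀ a b : ℝ, (∀ t ∈ uIoo a b, r < |t|) → ∫ t in a..b, φ t = 0 := by
      intro a b h
      rw [intervalIntegral.integral_congr_uIoo (g := fun _ => 0)]
      · simp
      · intro t ht
        exact hs t (h t ht)
    rcases lt_or_ge x 0 with h | h
    · rw [abs_of_neg h] at hx
      refine hz _ _ fun t ht => ?_
      have ht2 : t < -r := by
        have h3 : t ∈ uIoo (-1) x := ht
        rw [uIoo, mem_Ioo] at h3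
        refine lt_of_lt_of_le h3.2 ?_
        rw [sup_le_iff]
        constructor <;> linarith
      rw [abs_of_neg (by linarith)]
      linarith
    · rw [abs_of_nonneg h] at hx
      have h1 : ∫ t in (-1:ℝ)..x, φ t = (∫ t in (-1:ℝ)..1, φ t) + ∫ t in (1:ℝ)..x, φ t :=
        (intervalIntegral.integral_add_adjacent_intervals (hc.intervalIntegrable _ _) (hc.intervalIntegrable _ _)).symm
      rw [h1, h0, zero_add]
      refine hz _ _ fun t ht => ?_
      have ht2 : r < t := by
        have h3 : t ∈ uIoo 1 x := ht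
        rw [uIoo, mem_Ioo] at h3
        refine lt_of_le_of_lt ?_ h3.1
        rw [le_inf_iff]
        constructor <;> linarith
      rw [abs_of_pos (by linarith)]
      exact ht2

/-- T7 -/
theorem exists_test {g : ℝ → ℝ} (hg : IntegrableOn g (Icc (-1) 1))
    (hne : ¬ ∃ c : ℝ, ∀ᵐ x ∂(volume.restrict (Icc (-1:ℝ) 1)), g x = c) :
    ∃ (Ψ : ℝ → ℝ) (r : ℝ), ContDiff ℝ ∞ Ψ ∧ 0 < r ∧ r < 1 ∧ (∀ x, r < |x| → Ψ x = 0) ∧
      ∫ y in (-1:ℝ)..1, g y * deriv Ψ y ≠ 0 := by
  by_contra hcon
  push Not at hcon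
  -- a bump
  let χ₀ : ContDiffBump (0 : ℝ) := ⟨1 / 4, 1 / 2, by norm_num, by norm_num⟩
  obtain ⟨χ, hχ⟩ : ∃ χ : ℝ → ℝ, χ = χ₀.normed volume := ⟨_, rfl⟩
  have hχs : ContDiff ℝ ∞ χ := by rw [hχ]; exact χ₀.contDiff_normed
  have hχ1 : ∫ x, χ x = 1 := by rw [hχ]; exact χ₀.integral_normed
  have hχ0 : ∀ x, (1 / 2 : ℝ) ≤ |x| → χ x = 0 := by
    intro x hx
    rw [hχ]
    refine Function.notMem_support.1 ?_
    rw [χ₀.support_normed_eq]
    simp only [Metric.mem_ball, dist_zero_right, Real.norm_eq_abs, not_lt]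
    exact hx
  have hχI : ∫ x in (-1:ℝ)..1, χ x = 1 := by
    rw [intervalIntegral.integral_of_le (by norm_num), setIntegral_eq_integral_of_forall_compl_eq_zero, hχ1]
    intro x hx
    refine hχ0 x ?_
    rw [mem_Ioc, not_and_or, not_lt, not_le] at hx
    rcases hx with h | h
    · rw [abs_of_neg (by linarith)]
      linarith
    · rw [abs_of_pos (by linarith)]
      linarith
  obtain ⟨c, hc⟩ : ∃ c : ℝ, c = ∫ y in (-1:ℝ)..1, g y * χ y := ⟨_, rfl⟩
  refine hne ⟨c, ?_⟩
  have hgi : IntervalIntegrable g volume (-1) 1 := by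
    rw [intervalIntegrable_iff_integrableOn_Icc_of_le (by norm_num)]
    exact hg
  have key : ∀ᵐ x : ℝ, x ∈ Ioo (-1:ℝ) 1 → g x - c = 0 := by
    refine isOpen_Ioo.ae_eq_zero_of_integral_contDiff_smul_eq_zero ?_ ?_
    · refine IntegrableOn.locallyIntegrableOn ?_
      exact (hg.mono_set Ioo_subset_Icc_self).sub (integrableOn_const (by simp) (by simp))
    · intro φ hφ hφc hφs
      -- the support is in `[-r, r]`
      obtain ⟨r, hr0, hr1, hr⟩ : ∃ r : ℝ, 1 / 2 ≤ r ∧ r < 1 ∧ ∀ x, r < |x| → φ x = 0 := by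
        have h1 : IsCompact (tsupport φ) := hφc
        rcases (tsupport φ).eq_empty_or_nonempty with h2 | h2
        · refine ⟨1 / 2, le_rfl, by norm_num, fun x _ => ?_⟩
          exact image_eq_zero_of_notMem_tsupport (by rw [h2]; exact notMem_empty x)
        · obtain ⟨x₀, hx₀, hmax⟩ := h1.exists_isMaxOn h2 continuous_abs.continuousOn
          refine ⟨max (1 / 2) |x₀|, le_max_left _ _, ?_, fun x hx => ?_⟩
          · have := hφs hx₀
            exact max_lt (by norm_num) (abs_lt.2 this)
          · refine image_eq_zero_of_notMem_tsupport fun h3 => ?_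
            have h4 : |x| ≤ |x₀| := hmax h3
            exact absurd (lt_of_le_of_lt (le_max_right _ _) hx) (not_lt.2 h4)
      have hφI : ∫ x in (-1:ℝ)..1, φ x = ∫ x, φ x := by
        rw [intervalIntegral.integral_of_le (by norm_num), setIntegral_eq_integral_of_forall_compl_eq_zero]
        intro x hx
        refine hr x ?_
        rw [mem_Ioc, not_and_or, not_lt, not_le] at hx
        rcases hx with h | h
        · rw [abs_of_neg (by linarith)]
          linarith
        · rw [abs_of_pos (by linarith)]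
          linarith
      obtain ⟨a, ha⟩ : ∃ a : ℝ, a = ∫ x in (-1:ℝ)..1, φ x := ⟨_, rfl⟩
      have hψ : ContDiff ℝ ∞ fun x => φ x - a * χ x := hφ.sub (contDiff_const.mul hχs)
      have hφii : IntervalIntegrable φ volume (-1) 1 := hφ.continuous.intervalIntegrable _ _
      have hχii : IntervalIntegrable χ volume (-1) 1 := hχs.continuous.intervalIntegrable _ _
      have h0 : ∫ x in (-1:ℝ)..1, (φ x - a * χ x) = 0 := by
        rw [intervalIntegral.integral_sub hφii (hχii.const_mul a), intervalIntegral.integral_const_mul, hχI, ← ha]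
        ring
      obtain ⟨hp1, hp2, hp3⟩ := prim hψ (r := r) (by linarith) hr1 (fun x hx => by
        rw [hr x hx, hχ0 x (by linarith)]
        ring) h0
      have h1 := hcon _ r hp1 (by linarith) hr1 hp3
      simp only [hp2] at h1
      have h2 : ∫ y in (-1:ℝ)..1, g y * (φ y - a * χ y) =
          (∫ y in (-1:ℝ)..1, g y * φ y) - a * ∫ y in (-1:ℝ)..1, g y * χ y := by
        rw [← intervalIntegral.integral_const_mul, ← intervalIntegral.integral_sub]
        · refine intervalIntegral.integral_congr fun y _ => ?_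
          show _ = _
          ring
        · exact hgi.mul_continuousOn hφ.continuous.continuousOn
        · exact (hgi.mul_continuousOn hχs.continuous.continuousOn).const_mul a
      rw [h2, ← hc] at h1
      -- back to the whole line
      have h3 : ∫ x, φ x • (g x - c) = ∫ x in (-1:ℝ)..1, φ x * (g x - c) := by
        rw [intervalIntegral.integral_of_le (by norm_num), setIntegral_eq_integral_of_forall_compl_eq_zero]
        · rfl
        · intro x hx
          rw [hr x ?_, zero_mul]
          rw [mem_Ioc, not_and_or, not_lt, not_le] at hx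
          rcases hx with h | h
          · rw [abs_of_neg (by linarith)]
            linarith
          · rw [abs_of_pos (by linarith)]
            linarith
      rw [h3]
      have h4 : ∫ x in (-1:ℝ)..1, φ x * (g x - c) = (∫ y in (-1:ℝ)..1, g y * φ y) - c * ∫ x in (-1:ℝ)..1, φ x := by
        rw [← intervalIntegral.integral_const_mul, ← intervalIntegral.integral_sub]
        · refine intervalIntegral.integral_congr fun y _ => ?_
          show _ = _
          ring
        · exact hgi.mul_continuousOn hφ.continuous.continuousOn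
        · exact hφii.const_mul c
      rw [h4, ← ha]
      linarith
  rw [ae_restrict_iff' measurableSet_Icc]
  have h1 : ∀ᵐ x : ℝ, x ≠ -1 ∧ x ≠ 1 := by
    refine (measure_eq_zero_iff_ae_notMem.1 (measure_singleton (-1:ℝ))).and
      (measure_eq_zero_iff_ae_notMem.1 (measure_singleton (1:ℝ))) |>.mono fun x hx => ⟨?_, ?_⟩
    · exact fun h => hx.1 (by rw [h]; exact mem_singleton _)
    · exact fun h => hx.2 (by rw [h]; exact mem_singleton _)
  filter_upwards [key, h1] with x hx h2 h3
  have := hx ⟨lt_of_le_of_ne h3.1 (Ne.symm h2.1), lt_of_le_of_ne h3.2 h2.2⟩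
  linarith

/-- the same with the compact support -/
theorem exists_test' {g : ℝ → ℝ} (hg : IntegrableOn g (Icc (-1) 1))
    (hne : ¬ ∃ c : ℝ, ∀ᵐ x ∂(volume.restrict (Icc (-1:ℝ) 1)), g x = c) :
    ∃ (Ψ : ℝ → ℝ) (r : ℝ), ContDiff ℝ ∞ Ψ ∧ HasCompactSupport Ψ ∧ 0 < r ∧ r < 1 ∧ (∀ x, r < |x| → Ψ x = 0) ∧
      ∫ y in (-1:ℝ)..1, g y * deriv Ψ y ≠ 0 := by
  obtain ⟨Ψ, r, h1, h2, h3, h4, h5⟩ := exists_test hg hne
  refine ⟨Ψ, r, h1, HasCompactSupport.intro (isCompact_Icc (a := -r) (b := r)) fun x hx => h4 x ?_, h2, h3, h4, h5⟩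
  rw [mem_Icc, ← abs_le, not_le] at hx
  exact hx

end Pool.Agent.Helper62.OG
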