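import Pool.Agent.Helper62.OG.BV
import Pool.Agent.Helper62.OG.Ex
import Pool.Agent.Helper28.TL.Defs

/-!
# OG: no linear prediction of a linear statistic of the window, except of the number: functions of bounded variation
-/

set_option autoImplicit false
open MeasureTheory Set Filter Topology
open Pool.Agent.Helper93.UG (zc sp)
open Pool.Agent.Helper57.NS (cnt)
open Pool.Agent.Helper28.TL (Rng)
open scoped ContDiff

namespace Pool.Agent.Helper62.OG

/-- T6a as a proposition. -/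
def CoreG : Prop := ∀ d : ℝ, 0 < d → d ≤ 1 → ∀ Psi : ℝ → ℝ, ContDiff ℝ ∞ Psi → HasCompactSupport Psi → ∀ κ : ℝ, 0 < κ →
    ∃ c C T₀ : ℝ, 0 < c ∧ 1 ≤ C ∧ ∀ T R L : ℝ, T₀ ≤ T → C ≤ L → Rng d T R L →
    ∀ (n : ℕ) (J : Fin n → Set ℝ) (v : Fin n → ℝ) (A : ℝ), (∀ i, (J i).OrdConnected) → (∀ i, J i ⊆ Icc (-L) L) →
      ∑ i, |v i| ≤ L ^ c → κ ≤ |∫ x in (-L)..L, (∑ i, v i * (J i).indicator 1 x) * (deriv Psi (x / R) / R)| →
      ENNReal.ofReal ((L / R) ^ (-d) * T) ≤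
        volume {t : ℝ | T ≤ t ∧ t ≤ 2 * T ∧ 1 < |∑ i, v i * cnt T t (J i) - A|}

/-- T6b: no prediction of the sum of `g(height / R)` over the zeros in the window, for any `g` of bounded variation that is not
constant almost everywhere. -/
def Tol : Prop := ∀ g : ℝ → ℝ, BoundedVariationOn g (Icc (-1) 1) →
    (¬ ∃ c : ℝ, ∀ᵐ x ∂(volume.restrict (Icc (-1 : ℝ) 1)), g x = c) → ∀ d : ℝ, 0 < d → d ≤ 1 →
    ∃ c C T₀ : ℝ, 0 < c ∧ 1 ≤ C ∧ ∀ T R L : ℝ, T₀ ≤ T → C ≤ L → Rng d T R L → ∀ (f : ℝ → ℝ) (a : ℝ),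
      (∀ x ∈ Icc (-L) L, |f x| ≤ L ^ c) → eVariationOn f (Icc (-L) L) ≤ ENNReal.ofReal (L ^ c) →
      ENNReal.ofReal ((L / R) ^ (-d) * T) ≤ volume {t : ℝ | T ≤ t ∧ t ≤ 2 * T ∧ 1 / d <
        |(∑ᶠ ρ ∈ {ρ : ℂ | Pool.Agent.Helper57.PC.IsNontrivialZero ρ ∧ (ρ.im - t) / sp T ∈ Icc (-R) R},
            (Pool.Agent.Helper57.PC.mult ρ : ℝ) * g ((ρ.im - t) / sp T / R)) -
          (a - ∑ᶠ ρ ∈ {ρ : ℂ | Pool.Agent.Helper57.PC.IsNontrivialZero ρ ∧ (ρ.im - t) / sp T ∈ Icc (-L) L \ Icc (-R) R},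
            (Pool.Agent.Helper57.PC.mult ρ : ℝ) * f ((ρ.im - t) / sp T))|}

theorem tol_of (H : CoreG) : Tol := by
  intro g hg hne d hd hd1
  -- the bound for `g`
  obtain ⟨Bg, hBg, hgB, hgv⟩ : ∃ Bg : ℝ, 0 < Bg ∧ (∀ x ∈ Icc (-1:ℝ) 1, |g x| ≤ Bg) ∧
      eVariationOn g (Icc (-1) 1) ≤ ENNReal.ofReal Bg := by
    obtain ⟨V, hV⟩ : ∃ V : ℝ, V = (eVariationOn g (Icc (-1) 1)).toReal := ⟨_, rfl⟩
    have hV0 : 0 ≤ V := by rw [hV]; exact ENNReal.toReal_nonneg
    refine ⟨|g 0| + V + 1, by positivity, fun x hx => ?_, ?_⟩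
    · have h1 : edist (g x) (g 0) ≤ eVariationOn g (Icc (-1) 1) :=
        eVariationOn.edist_le g hx ⟨by norm_num, by norm_num⟩
      have h2 : dist (g x) (g 0) ≤ V := by
        rw [hV, dist_edist]
        exact ENNReal.toReal_mono hg h1
      rw [Real.dist_eq] at h2
      have h3 : |g x| ≤ |g x - g 0| + |g 0| := by
        have := abs_add_le (g x - g 0) (g 0)
        simpa using this
      linarith
    · rw [← ENNReal.ofReal_toReal hg]
      refine ENNReal.ofReal_le_ofReal ?_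
      rw [← hV]
      have := abs_nonneg (g 0)
      linarith
  obtain ⟨Ψ, r, hΨ, hΨc, hr0, hr1, hΨr, hΨg⟩ := exists_test' (bv_int hgv) hne
  obtain ⟨κ, hκ⟩ : ∃ κ : ℝ, κ = |∫ y in (-1:ℝ)..1, g y * deriv Ψ y| := ⟨_, rfl⟩
  have hκ0 : 0 < κ := by rw [hκ]; exact abs_pos.2 hΨg
  have hψ : Continuous (deriv Ψ) := (contDiff_infty_iff_deriv.1 hΨ).2.continuous
  have hψ0 : ∀ x, 1 < |x| → deriv Ψ x = 0 := by
    intro x hx
    have h1 : Ψ =ᶠ[𝓝 x] fun _ => 0 := by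
      have h2 : {y : ℝ | r < |y|} ∈ 𝓝 x := (isOpen_lt continuous_const continuous_abs).mem_nhds (by
        show r < |x|
        linarith)
      filter_upwards [h2] with y hy using hΨr y hy
    rw [h1.deriv_eq]
    simp
  obtain ⟨c, C, T₀, hc, hC, H⟩ := H d hd hd1 Ψ hΨ hΨc (d * κ / 4) (by positivity)
  obtain ⟨C1, hC1⟩ : ∃ C1 : ℝ, ∀ L : ℝ, C1 ≤ L → 24 + 9 * Bg ≤ L ^ (c / 2) :=
    eventually_atTop.1 ((tendsto_rpow_atTop (show (0:ℝ) < c / 2 by linarith)).eventually_ge_atTop _)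
  refine ⟨c / 2, max (max C C1) 2, max T₀ 3, by linarith, hC.trans ((le_max_left _ _).trans (le_max_left _ _)), ?_⟩
  intro T R L hT hL hR f a hf hv
  have hT0 : T₀ ≤ T := (le_max_left _ _).trans hT
  have hT3 : (3:ℝ) ≤ T := (le_max_right _ _).trans hT
  have hLC : C ≤ L := ((le_max_left _ _).trans (le_max_left _ _)).trans hL
  have hLC1 : C1 ≤ L := ((le_max_right _ _).trans (le_max_left _ _)).trans hL
  have hL2 : (2:ℝ) ≤ L := (le_max_right _ _).trans hL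
  have hLp : 0 < L := by linarith
  have hR1 : 1 ≤ R := (Real.one_le_rpow (by linarith) hd.le).trans hR.2.1
  have hRL : R < L := by
    refine lt_of_le_of_lt hR.2.2 ?_
    calc L ^ (1 - d) < L ^ (1 : ℝ) := Real.rpow_lt_rpow_of_exponent_lt (by linarith) (by linarith)
      _ = L := Real.rpow_one L
  have hLc : 0 < L ^ (c / 2) := Real.rpow_pos_of_pos hLp _
  obtain ⟨θ, hθdef⟩ : ∃ θ : ℝ, θ = min 1 (κ / 2) := ⟨_, rfl⟩
  have hθ : 0 < θ := by rw [hθdef]; exact lt_min one_pos (by positivity)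
  have hθ1 : θ ≤ 1 := by rw [hθdef]; exact min_le_left _ _
  have hθ2 : θ ≤ κ / 2 := by rw [hθdef]; exact min_le_right _ _
  obtain ⟨ι, s, J, w, h1, h2, h3, h4⟩ := gsum_approx hT3 (by linarith : 0 < R) hRL hLc hBg hf hv hgB hgv hψ hψ0 hθ
  have hsum : ∀ q : ι → ℝ, ∑ i ∈ s, q i = ∑ i : Fin s.card, q (s.equivFin.symm i) := by
    intro q
    rw [← Finset.sum_coe_sort s, ← Equiv.sum_comp s.equivFin.symm]
  have hcore := H T R L hT0 hLC hR s.card (fun i => J (s.equivFin.symm i)) (fun i => d / 2 * w (s.equivFin.symm i))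
    (d / 2 * a) (fun i => (h1 _ (s.equivFin.symm i).2).1) (fun i => (h1 _ (s.equivFin.symm i).2).2) ?_ ?_
  · refine hcore.trans (measure_mono ?_)
    rintro t ⟨ht1, ht2, ht3⟩
    refine ⟨ht1, ht2, ?_⟩
    have h5 := h3 t ⟨ht1, ht2⟩
    have h6 : ∑ i : Fin s.card, d / 2 * w (s.equivFin.symm i) * cnt T t (J (s.equivFin.symm i)) - d / 2 * a =
        d / 2 * (∑ i ∈ s, w i * cnt T t (J i) - a) := by
      rw [hsum, mul_sub, Finset.mul_sum]
      congr 1
      exact Finset.sum_congr rfl fun i _ => by ring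
    rw [h6, abs_mul, abs_of_pos (by positivity)] at ht3
    have h7 : |∑ i ∈ s, w i * cnt T t (J i) - a| ≤
        |isum g T R t - (a - Pool.Agent.Helper57.OP.wsum f T L t (Icc (-R) R))| +
        |isum g T R t + Pool.Agent.Helper57.OP.wsum f T L t (Icc (-R) R) - ∑ i ∈ s, w i * cnt T t (J i)| := by
      refine (abs_sub _ _).trans' (le_of_eq ?_)
      congr 1
      ring
    show 1 / d < |isum g T R t - (a - Pool.Agent.Helper57.OP.wsum f T L t (Icc (-R) R))|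
    have h8 : 2 / d < |∑ i ∈ s, w i * cnt T t (J i) - a| := by
      rw [div_lt_iff₀ hd]
      linarith
    have h9 : 1 ≤ 1 / d := by
      rw [le_div_iff₀ hd]
      linarith
    have h10 : 2 / d = 1 / d + 1 / d := by ring
    linarith
  · have h5 : ∑ i : Fin s.card, |d / 2 * w (s.equivFin.symm i)| = d / 2 * ∑ i ∈ s, |w i| := by
      rw [hsum (fun i => |w i|), Finset.mul_sum]
      refine Finset.sum_congr rfl fun i _ => ?_
      rw [abs_mul, abs_of_pos (by positivity)]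
    rw [h5]
    have h6 : 0 ≤ ∑ i ∈ s, |w i| := Finset.sum_nonneg fun i _ => abs_nonneg _
    have h7 : d / 2 * ∑ i ∈ s, |w i| ≤ ∑ i ∈ s, |w i| := by nlinarith
    have h8 := hC1 L hLC1
    have h9 : L ^ c = L ^ (c / 2) * L ^ (c / 2) := by
      rw [← Real.rpow_add hLp]
      congr 1
      ring
    have h10 : 24 * L ^ (c / 2) + 9 * Bg ≤ (24 + 9 * Bg) * L ^ (c / 2) := by nlinarith
    rw [h9]
    nlinarith
  · have h5 : ∫ x in (-L)..L, (∑ i : Fin s.card, d / 2 * w (s.equivFin.symm i) * (J (s.equivFin.symm i)).indicator 1 x) *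
        (deriv Ψ (x / R) / R) =
        d / 2 * ∫ x in (-L)..L, (∑ i ∈ s, w i * (J i).indicator (fun _ => (1 : ℝ)) x) * (deriv Ψ (x / R) / R) := by
      rw [← intervalIntegral.integral_const_mul]
      refine intervalIntegral.integral_congr fun x _ => ?_
      show _ = d / 2 * ((∑ i ∈ s, w i * (J i).indicator (fun _ => (1 : ℝ)) x) * (deriv Ψ (x / R) / R))
      rw [hsum, ← mul_assoc, Finset.mul_sum]
      congr 1
      refine Finset.sum_congr rfl fun i _ => ?_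
      show d / 2 * w (s.equivFin.symm i) * (J (s.equivFin.symm i)).indicator (fun _ => (1 : ℝ)) x = _
      ring
    rw [h5, abs_mul, abs_of_pos (by positivity)]
    have h6 : κ ≤ |∫ x in (-L)..L, (∑ i ∈ s, w i * (J i).indicator (fun _ => (1 : ℝ)) x) * (deriv Ψ (x / R) / R)| + θ := by
      rw [hκ]
      have h7 := abs_sub_abs_le_abs_sub (∫ y in (-1:ℝ)..1, g y * deriv Ψ y)
        (∫ x in (-L)..L, (∑ i ∈ s, w i * (J i).indicator (fun _ => (1 : ℝ)) x) * (deriv Ψ (x / R) / R))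
      rw [abs_sub_comm] at h7
      linarith
    nlinarith

end Pool.Agent.Helper62.OG
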